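import Mathlib.Combinatorics.SimpleGraph.Metric
import Mathlib.Combinatorics.SimpleGraph.Paths
import Mathlib.Combinatorics.SimpleGraph.Connectivity.Connected
import Mathlib.Data.Real.Basic
import Mathlib.Tactic

set_option autoImplicit false

/-!
# MP_5904a2_co: the ratio of the path variant to the distance version of the Explorer-Director game
is unbounded
-/

namespace Pool.Agent.Results.MP_5904a2_co.UnboundedRatio

open Finset

section Defs

variable {V : Type} [DecidableEq V]

/-- In the distance game the Director may move the token from `u` to `x` if the Explorer names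
`d = dist(u, x)`. -/
def DistanceMove (G : SimpleGraph V) (u : V) (d : ℕ) (x : V) : Prop := G.dist u x = d

/-- In the path variant the Director may move the token from `u` to `x` if the Explorer names the
length `l` of some path from `u` to `x`. -/
def PathMove (G : SimpleGraph V) (u : V) (l : ℕ) (x : V) : Prop :=
  ∃ p : G.Walk u x, p.IsPath ∧ p.length = l

/-- `ExplorerForces R N u S`: in the position in which the token is at `u` and `S` is the set of
visited vertices the Explorer can force that at least `N` vertices are visited. In each round he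
names an integer `l ≥ 1` for which some move is possible, and the Director chooses a vertex `x`
with `R u l x`, to which the token is moved. -/
inductive ExplorerForces (R : V → ℕ → V → Prop) (N : ℕ) : V → Finset V → Prop
  | enough (u : V) (S : Finset V) (h : N ≤ S.card) : ExplorerForces R N u S
  | round (u : V) (S : Finset V) (l : ℕ) (hl : 1 ≤ l) (hex : ∃ x, R u l x)
      (h : ∀ x, R u l x → ExplorerForces R N x (insert x S)) : ExplorerForces R N u S

/-- The number of visited vertices under optimal play, starting at `v`: the largest number of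
visited vertices that the Explorer can force. -/
noncomputable def value (R : V → ℕ → V → Prop) (v : V) : ℕ :=
  sSup {N | ExplorerForces R N v {v}}

/-- The value `f_d(G, v)` of the distance game. -/
noncomputable def distanceValue (G : SimpleGraph V) (v : V) : ℕ := value (DistanceMove G) v

/-- The value `f_p(G, v)` of the path variant. -/
noncomputable def pathValue (G : SimpleGraph V) (v : V) : ℕ := value (PathMove G) v

end Defs

/-! ### General facts on the game -/

section General

variable {V : Type} [DecidableEq V] {R : V → ℕ → V → Prop} {N : ℕ}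

lemma forces_le_of_closed {C : Finset V}
    (hC : ∀ u ∈ C, ∀ l, 1 ≤ l → (∃ x, R u l x) → ∃ x ∈ C, R u l x)
    {u : V} {S : Finset V} (h : ExplorerForces R N u S) (hu : u ∈ C) (hS : S ⊆ C) :
    N ≤ C.card := by
  induction h with
  | enough u S h => exact h.trans (Finset.card_le_card hS)
  | round u S l hl hex h ih =>
    obtain ⟨x, hxC, hx⟩ := hC u hu l hl hex
    exact ih x hx hxC (Finset.insert_subset hxC hS)

lemma value_le_of_closed {C : Finset V}
    (hC : ∀ u ∈ C, ∀ l, 1 ≤ l → (∃ x, R u l x) → ∃ x ∈ C, R u l x)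
    {v : V} (hv : v ∈ C) : value R v ≤ C.card := by
  unfold value
  refine csSup_le ⟨0, ExplorerForces.enough v {v} (Nat.zero_le _)⟩ ?_
  intro N hN
  exact forces_le_of_closed hC hN hv (Finset.singleton_subset_iff.mpr hv)

lemma le_value [Fintype V] {v : V} (h : ExplorerForces R N v {v}) : N ≤ value R v := by
  unfold value
  refine le_csSup ?_ (show N ∈ {N | ExplorerForces R N v {v}} from h)
  refine ⟨Fintype.card V, ?_⟩
  intro M hM
  have := forces_le_of_closed (C := univ) (fun u _ l _ hex => by
    obtain ⟨x, hx⟩ := hex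
    exact ⟨x, Finset.mem_univ x, hx⟩) hM (Finset.mem_univ v) (Finset.subset_univ _)
  rwa [Finset.card_univ] at this

lemma one_le_value [Fintype V] (v : V) : 1 ≤ value R v :=
  le_value (ExplorerForces.enough v {v} (by simp))

/-- counting with an injective function on an interval of times -/
lemma card_of_inj {α : Type} [DecidableEq α] {f : ℕ → α} {a b : ℕ} {W : Finset α}
    (hW : ∀ t, a ≤ t → t < b → f t ∈ W)
    (hinj : ∀ s t, a ≤ s → s < t → t < b → f s ≠ f t) : b - a ≤ W.card := by
  have h := Finset.card_le_card_of_injOn (s := Finset.Ico a b) (t := W) f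
    (fun t ht => by
      have := Finset.mem_Ico.mp ht
      exact hW t this.1 this.2)
    (fun s hs t ht hst => by
      have h1 := Finset.mem_Ico.mp hs
      have h2 := Finset.mem_Ico.mp ht
      rcases lt_trichotomy s t with hlt | heq | hgt
      · exact absurd hst (hinj s t h1.1 hlt h2.2)
      · exact heq
      · exact absurd hst.symm (hinj t s h2.1 hgt h1.2))
  simpa using h

/-- walks from functions -/
lemma exists_walk {V : Type} {G : SimpleGraph V} {f : ℕ → V} (l : ℕ)
    (h : ∀ t, t < l → G.Adj (f t) (f (t + 1))) :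
    ∃ p : G.Walk (f 0) (f l), p.length = l ∧ p.support = (List.range (l + 1)).map f := by
  induction l with
  | zero => exact ⟨SimpleGraph.Walk.nil, rfl, by simp⟩
  | succ l ih =>
    obtain ⟨p, hp, hs⟩ := ih (fun t ht => h t (by omega))
    refine ⟨p.concat (h l (by omega)), by simp [hp], ?_⟩
    rw [SimpleGraph.Walk.support_concat, hs, List.range_succ (n := l + 1), List.map_append]
    simp

lemma exists_path {V : Type} {G : SimpleGraph V} {f : ℕ → V} (l : ℕ) (r : V → ℕ)
    (h : ∀ t, t < l → G.Adj (f t) (f (t + 1))) (hr : ∀ t, t ≤ l → r (f t) = t) :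
    ∃ p : G.Walk (f 0) (f l), p.IsPath ∧ p.length = l := by
  obtain ⟨p, hp, hs⟩ := exists_walk l h
  refine ⟨p, ?_, hp⟩
  rw [SimpleGraph.Walk.isPath_def, hs]
  refine List.Nodup.map_on ?_ List.nodup_range
  intro s hs t ht hst
  have h1 := hr s (by simpa [Nat.lt_succ_iff] using hs)
  have h2 := hr t (by simpa [Nat.lt_succ_iff] using ht)
  rw [hst] at h1
  omega

end General

/-! ### The core -/

lemma region {N p q u v : ℕ} {g : ℕ → ℕ}
    (hne : ∀ t, u ≤ t → t < v → g t ≠ N ∧ g t ≠ p ∧ g t ≠ q)
    (hpq : p < q)
    (hadj : ∀ t, u ≤ t → t + 1 < v → g t = N ∨ g (t + 1) = N ∨ g t + 1 = g (t + 1) ∨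
      g (t + 1) + 1 = g t) :
    (∀ t, u ≤ t → t < v → g t < p) ∨ (∀ t, u ≤ t → t < v → p < g t ∧ g t < q) ∨
      (∀ t, u ≤ t → t < v → q < g t) := by
  induction v with
  | zero => left; intro t _ h; omega
  | succ v ih =>
    by_cases huv : u ≤ v
    swap
    · left; intro t _ h; omega
    rcases Nat.lt_or_ge u v with h | h
    · have hv := hne v huv (by omega)
      have hv1 := hne (v - 1) (by omega) (by omega)
      have ha := hadj (v - 1) (by omega) (by omega)
      rw [show v - 1 + 1 = v from by omega] at ha
      rcases ih (fun t h1 h2 => hne t h1 (by omega)) (fun t h1 h2 => hadj t h1 (by omega)) with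
        h1 | h1 | h1
      · left
        intro t ht1 ht2
        rcases Nat.lt_or_ge t v with h3 | h3
        · exact h1 t ht1 h3
        · have : t = v := by omega
          subst this
          have := h1 (t - 1) (by omega) (by omega)
          omega
      · right; left
        intro t ht1 ht2
        rcases Nat.lt_or_ge t v with h3 | h3
        · exact h1 t ht1 h3
        · have : t = v := by omega
          subst this
          have := h1 (t - 1) (by omega) (by omega)
          omega
      · right; right
        intro t ht1 ht2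
        rcases Nat.lt_or_ge t v with h3 | h3
        · exact h1 t ht1 h3
        · have : t = v := by omega
          subst this
          have := h1 (t - 1) (by omega) (by omega)
          omega
    · have : u = v := by omega
      subst this
      have hv := hne u le_rfl (by omega)
      rcases lt_trichotomy (g u) p with h1 | h1 | h1
      · left
        intro t ht1 ht2
        have : t = u := by omega
        rw [this]; exact h1
      · omega
      · rcases lt_trichotomy (g u) q with h2 | h2 | h2
        · right; left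
          intro t ht1 ht2
          have : t = u := by omega
          rw [this]; exact ⟨h1, h2⟩
        · omega
        · right; right
          intro t ht1 ht2
          have : t = u := by omega
          rw [this]; exact h2

/-- a path in the fan from spine vertex `p` to spine vertex `q > p` -/
lemma core_le {N p q a e : ℕ} {g : ℕ → ℕ} (hpq : p < q) (hq : q < N) (hae : a < e)
    (hg : ∀ t, a ≤ t → t ≤ e → g t ≤ N)
    (hinj : ∀ s t, a ≤ s → s < t → t ≤ e → g s ≠ g t)
    (hadj : ∀ t, a ≤ t → t < e → g t = N ∨ g (t + 1) = N ∨ g t + 1 = g (t + 1) ∨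
      g (t + 1) + 1 = g t)
    (ha : g a = p) (he : g e = q) :
    e - a + 1 ≤ N + 1 - p ∨ e - a + 1 ≤ q + 2 ∨ e - a + 1 ≤ N + 2 - (q - p) := by
  have hnp : ∀ t, a < t → t ≤ e → g t ≠ p := by
    intro t h1 h2 h3
    exact hinj a t le_rfl h1 h2 (by rw [ha, h3])
  have hnq : ∀ t, a ≤ t → t < e → g t ≠ q := by
    intro t h1 h2 h3
    exact hinj t e h1 h2 le_rfl (by rw [he, h3])
  have hcount : ∀ W : Finset ℕ, (∀ t, a ≤ t → t < e + 1 → g t ∈ W) → e - a + 1 ≤ W.card := by
    intro W hW
    have := card_of_inj (f := g) (a := a) (b := e + 1) (W := W) hW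
      (fun s t h1 h2 h3 => hinj s t h1 h2 (by omega))
    omega
  by_cases hhub : ∃ h, a < h ∧ h < e ∧ g h = N
  · obtain ⟨h, hh1, hh2, hh3⟩ := hhub
    have hnN : ∀ t, a ≤ t → t ≤ e → t ≠ h → g t ≠ N := by
      intro t h1 h2 h3 h4
      rcases Nat.lt_or_ge t h with h5 | h5
      · exact hinj t h h1 h5 (by omega) (by rw [h4, hh3])
      · exact hinj h t (by omega) (by omega) h2 (by rw [h4, hh3])
    have R1 := region (N := N) (p := p) (q := q) (u := a + 1) (v := h) (g := g)
      (fun t h1 h2 => ⟨hnN t (by omega) (by omega) (by omega), hnp t (by omega) (by omega),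
        hnq t (by omega) (by omega)⟩) hpq (fun t h1 h2 => hadj t (by omega) (by omega))
    have R2 := region (N := N) (p := p) (q := q) (u := h + 1) (v := e) (g := g)
      (fun t h1 h2 => ⟨hnN t (by omega) (by omega) (by omega), hnp t (by omega) (by omega),
        hnq t (by omega) (by omega)⟩) hpq (fun t h1 h2 => hadj t (by omega) (by omega))
    -- before the hub the path is not beyond `q`
    have R1' : (∀ t, a + 1 ≤ t → t < h → g t < p) ∨
        (∀ t, a + 1 ≤ t → t < h → p < g t ∧ g t < q) := by
      rcases R1 with h1 | h1 | h1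
      · exact Or.inl h1
      · exact Or.inr h1
      · left
        intro t ht1 ht2
        have h2 := h1 (a + 1) le_rfl (by omega)
        have h3 := hadj a le_rfl (by omega)
        have h4 := hnN (a + 1) (by omega) (by omega) (by omega)
        omega
    have R2' : (∀ t, h + 1 ≤ t → t < e → p < g t ∧ g t < q) ∨
        (∀ t, h + 1 ≤ t → t < e → q < g t) := by
      rcases R2 with h1 | h1 | h1
      · left
        intro t ht1 ht2
        have h2 := h1 (e - 1) (by omega) (by omega)
        have h3 := hadj (e - 1) (by omega) (by omega)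
        have h4 := hnN (e - 1) (by omega) (by omega) (by omega)
        rw [show e - 1 + 1 = e from by omega] at h3
        omega
      · exact Or.inl h1
      · exact Or.inr h1
    have key : ∀ t, a ≤ t → t < e + 1 → t = a ∨ (a + 1 ≤ t ∧ t < h) ∨ t = h ∨
        (h + 1 ≤ t ∧ t < e) ∨ t = e := by
      intro t h1 h2
      omega
    rcases R1' with h1 | h1 <;> rcases R2' with h2 | h2
    · right; left
      have := hcount (insert N (Finset.range (q + 1))) (by
        intro t ht1 ht2
        rw [Finset.mem_insert, Finset.mem_range]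
        rcases key t ht1 ht2 with h3 | h3 | h3 | h3 | h3
        · rw [h3]; omega
        · have := h1 t h3.1 h3.2; omega
        · rw [h3]; omega
        · have := h2 t h3.1 h3.2; omega
        · rw [h3]; omega)
      have h3 := Finset.card_insert_le N (Finset.range (q + 1))
      rw [Finset.card_range] at h3
      omega
    · right; right
      have := hcount (Finset.range (p + 1) ∪ Finset.Ico q (N + 1)) (by
        intro t ht1 ht2
        rw [Finset.mem_union, Finset.mem_range, Finset.mem_Ico]
        have h0 := hg t ht1 (by omega)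
        rcases key t ht1 ht2 with h3 | h3 | h3 | h3 | h3
        · rw [h3]; omega
        · have := h1 t h3.1 h3.2; omega
        · rw [h3]; omega
        · have := h2 t h3.1 h3.2; omega
        · rw [h3]; omega)
      have h3 := Finset.card_union_le (Finset.range (p + 1)) (Finset.Ico q (N + 1))
      rw [Finset.card_range, Nat.card_Ico] at h3
      omega
    · right; left
      have := hcount (insert N (Finset.range (q + 1))) (by
        intro t ht1 ht2
        rw [Finset.mem_insert, Finset.mem_range]
        rcases key t ht1 ht2 with h3 | h3 | h3 | h3 | h3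
        · rw [h3]; omega
        · have := h1 t h3.1 h3.2; omega
        · rw [h3]; omega
        · have := h2 t h3.1 h3.2; omega
        · rw [h3]; omega)
      have h3 := Finset.card_insert_le N (Finset.range (q + 1))
      rw [Finset.card_range] at h3
      omega
    · left
      have := hcount (Finset.Ico p (N + 1)) (by
        intro t ht1 ht2
        rw [Finset.mem_Ico]
        have h0 := hg t ht1 (by omega)
        rcases key t ht1 ht2 with h3 | h3 | h3 | h3 | h3
        · rw [h3]; omega
        · have := h1 t h3.1 h3.2; omega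
        · rw [h3]; omega
        · have := h2 t h3.1 h3.2; omega
        · rw [h3]; omega)
      rw [Nat.card_Ico] at this
      omega
  · push Not at hhub
    have hnN : ∀ t, a ≤ t → t ≤ e → g t ≠ N := by
      intro t h1 h2
      rcases Nat.lt_or_ge a t with h3 | h3
      · rcases Nat.lt_or_ge t e with h4 | h4
        · exact hhub t h3 h4
        · have : t = e := by omega
          rw [this, he]; omega
      · have : t = a := by omega
        rw [this, ha]; omega
    have R1 := region (N := N) (p := p) (q := q) (u := a + 1) (v := e) (g := g)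
      (fun t h1 h2 => ⟨hnN t (by omega) (by omega), hnp t (by omega) (by omega),
        hnq t (by omega) (by omega)⟩) hpq (fun t h1 h2 => hadj t (by omega) (by omega))
    rcases R1 with h1 | h1 | h1
    · right; left
      have := hcount (Finset.range (q + 1)) (by
        intro t ht1 ht2
        rw [Finset.mem_range]
        rcases (by omega : t = a ∨ (a + 1 ≤ t ∧ t < e) ∨ t = e) with h3 | h3 | h3
        · rw [h3]; omega
        · have := h1 t h3.1 h3.2; omega
        · rw [h3]; omega)
      rw [Finset.card_range] at this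
      omega
    · right; left
      have := hcount (Finset.range (q + 1)) (by
        intro t ht1 ht2
        rw [Finset.mem_range]
        rcases (by omega : t = a ∨ (a + 1 ≤ t ∧ t < e) ∨ t = e) with h3 | h3 | h3
        · rw [h3]; omega
        · have := h1 t h3.1 h3.2; omega
        · rw [h3]; omega)
      rw [Finset.card_range] at this
      omega
    · left
      have := hcount (Finset.Ico p (N + 1)) (by
        intro t ht1 ht2
        rw [Finset.mem_Ico]
        have h0 := hg t ht1 (by omega)
        rcases (by omega : t = a ∨ (a + 1 ≤ t ∧ t < e) ∨ t = e) with h3 | h3 | h3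
        · rw [h3]; omega
        · have := h1 t h3.1 h3.2; omega
        · rw [h3]; omega)
      rw [Nat.card_Ico] at this
      omega

/-! ### The graph -/

/-- The vertices: a spine of `6 m` vertices, a hub, and for each `j < m` a clique with `j + 1`
vertices. -/
inductive Vx (m : ℕ) : Type
  | sp (x : Fin (6 * m))
  | hub
  | bl (j : Fin m) (t : Fin (j.val + 1))
  deriving DecidableEq, Fintype

/-- adjacency -/
def adj (m : ℕ) : Vx m → Vx m → Prop
  | .sp x, .sp y => (x : ℕ) + 1 = y ∨ (y : ℕ) + 1 = x
  | .sp _, .hub => True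
  | .hub, .sp _ => True
  | .hub, .hub => False
  | .sp x, .bl j _ => (x : ℕ) = 2 * m + 2 * j
  | .bl j _, .sp x => (x : ℕ) = 2 * m + 2 * j
  | .bl j t, .bl j' t' => (j : ℕ) = j' ∧ (t : ℕ) ≠ t'
  | .hub, .bl _ _ => False
  | .bl _ _, .hub => False

/-- the graph: the spine is a path, the hub is adjacent to the whole spine, and the `j`-th clique
is completely joined to the spine vertex number `2 m + 2 j` -/
def G (m : ℕ) : SimpleGraph (Vx m) where
  Adj := adj m
  symm := ⟨by
    rintro (x | _ | ⟨j, t⟩) (y | _ | ⟨j', t'⟩) h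
    all_goals simp only [adj] at h ⊢
    · exact h.symm
    · exact h
    · exact h
    · exact ⟨h.1.symm, h.2.symm⟩⟩
  loopless := ⟨by
    rintro (x | _ | ⟨j, t⟩) h
    all_goals simp [adj] at h⟩

variable {m : ℕ}

/-! ### The distance game -/

/-- distance to the hub -/
def hubDist : Vx m → ℕ
  | .sp _ => 1
  | .hub => 0
  | .bl _ _ => 2

/-- the spine vertex below the `j`-th clique -/
def foot (j : Fin m) : Fin (6 * m) := ⟨2 * m + 2 * j, by omega⟩

lemma reach_hub (x : Vx m) : ∃ p : (G m).Walk x Vx.hub, p.length = hubDist x := by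
  rcases x with x | _ | ⟨j, t⟩
  · have h : (G m).Adj (Vx.sp x) Vx.hub := trivial
    exact ⟨SimpleGraph.Walk.cons h SimpleGraph.Walk.nil, rfl⟩
  · exact ⟨SimpleGraph.Walk.nil, rfl⟩
  · have h : (G m).Adj (Vx.sp (foot j)) Vx.hub := trivial
    have h2 : (G m).Adj (Vx.bl j t) (Vx.sp (foot j)) := rfl
    exact ⟨SimpleGraph.Walk.cons h2 (SimpleGraph.Walk.cons h SimpleGraph.Walk.nil), rfl⟩

lemma connected : (G m).Connected := by
  have : Nonempty (Vx m) := ⟨Vx.hub⟩
  refine SimpleGraph.Connected.mk ?_
  intro x y
  obtain ⟨p, _⟩ := reach_hub x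
  obtain ⟨q, _⟩ := reach_hub y
  exact ⟨p.append q.reverse⟩

lemma dist_le_hub (x y : Vx m) : (G m).dist x y ≤ hubDist x + hubDist y := by
  obtain ⟨p, hp⟩ := reach_hub x
  obtain ⟨q, hq⟩ := reach_hub y
  have := SimpleGraph.dist_le (p.append q.reverse)
  rw [SimpleGraph.Walk.length_append, SimpleGraph.Walk.length_reverse] at this
  omega

/-- a potential for the distance between the clique number `0` and the clique number `1` -/
def phi : Vx m → ℕ
  | .sp x => if (x : ℕ) = 2 * m then 1 else if (x : ℕ) = 2 * m + 2 then 3 else 2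
  | .hub => 2
  | .bl j _ => if (j : ℕ) = 0 then 0 else if (j : ℕ) = 1 then 4 else 2

lemma phi_adj {x y : Vx m} (h : (G m).Adj x y) : phi y ≤ phi x + 1 := by
  rcases x with x | _ | ⟨j, t⟩ <;> rcases y with y | _ | ⟨j', t'⟩ <;>
    simp only [G, adj, phi] at h ⊢ <;> split_ifs <;> omega

lemma phi_walk {x y : Vx m} (p : (G m).Walk x y) : phi y ≤ phi x + p.length := by
  induction p with
  | nil => simp
  | cons h p ih =>
    have := phi_adj h
    rw [SimpleGraph.Walk.length_cons]
    omega

lemma phi_dist (x y : Vx m) : phi y ≤ phi x + (G m).dist x y := by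
  obtain ⟨p, hp⟩ := (connected (m := m)).exists_walk_length_eq_dist x y
  rw [← hp]
  exact phi_walk p

lemma distanceValue_le (hm : 2 ≤ m) :
    distanceValue (G m) (Vx.bl ⟨0, by omega⟩ ⟨0, by simp⟩) ≤ 5 := by
  set b0 : Vx m := Vx.bl ⟨0, by omega⟩ ⟨0, by simp⟩ with hb0
  set s0 : Vx m := Vx.sp (foot ⟨0, by omega⟩) with hs0
  set s1 : Vx m := Vx.sp (foot ⟨1, by omega⟩) with hs1
  set b1 : Vx m := Vx.bl ⟨1, by omega⟩ ⟨0, by simp⟩ with hb1
  have a1 : (G m).dist b0 s0 ≤ 1 := by
    have h : (G m).Adj b0 s0 := rfl
    rw [SimpleGraph.dist_eq_one_iff_adj.mpr h]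
  have a2 : (G m).dist s0 Vx.hub ≤ 1 := dist_le_hub s0 Vx.hub
  have a3 : (G m).dist Vx.hub s1 ≤ 1 := dist_le_hub Vx.hub s1
  have a4 : (G m).dist s1 b1 ≤ 1 := by
    have h : (G m).Adj s1 b1 := rfl
    rw [SimpleGraph.dist_eq_one_iff_adj.mpr h]
  have a5 : 4 ≤ (G m).dist b0 b1 := by
    have := phi_dist b0 b1
    simp [hb0, hb1, phi] at this
    exact this
  have tri := fun x y z : Vx m => (connected (m := m)).dist_triangle (u := x) (v := y) (w := z)
  have t1 := tri b0 s0 Vx.hub
  have t2 := tri s0 Vx.hub s1
  have t3 := tri Vx.hub s1 b1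
  have t4 := tri b0 Vx.hub s1
  have t5 := tri b0 Vx.hub b1
  have t6 := tri b0 s0 s1
  have t7 := tri b0 s0 b1
  have t8 := tri b0 s1 b1
  have t9 := tri s0 Vx.hub b1
  have t10 := tri s0 s1 b1
  have e1 := SimpleGraph.dist_comm (G := G m) (u := b0) (v := s0)
  have e2 := SimpleGraph.dist_comm (G := G m) (u := b0) (v := Vx.hub)
  have e3 := SimpleGraph.dist_comm (G := G m) (u := b0) (v := s1)
  have e4 := SimpleGraph.dist_comm (G := G m) (u := b0) (v := b1)
  have e5 := SimpleGraph.dist_comm (G := G m) (u := s0) (v := Vx.hub)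
  have e6 := SimpleGraph.dist_comm (G := G m) (u := s0) (v := s1)
  have e7 := SimpleGraph.dist_comm (G := G m) (u := s0) (v := b1)
  have e8 := SimpleGraph.dist_comm (G := G m) (u := Vx.hub) (v := s1)
  have e9 := SimpleGraph.dist_comm (G := G m) (u := Vx.hub) (v := b1)
  have e10 := SimpleGraph.dist_comm (G := G m) (u := s1) (v := b1)
  have up : ∀ u x : Vx m, (G m).dist u x ≤ hubDist u + 2 := by
    intro u x
    have h1 := dist_le_hub u x
    have h2 : hubDist x ≤ 2 := by rcases x with x | _ | ⟨j, t⟩ <;> simp [hubDist]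
    omega
  refine (value_le_of_closed (C := {b0, s0, Vx.hub, s1, b1}) ?_ (by simp)).trans
    Finset.card_le_five
  intro u hu l hl hex
  obtain ⟨x, hx⟩ := hex
  have hux := up u x
  rw [DistanceMove] at hx
  simp only [Finset.mem_insert, Finset.mem_singleton] at hu
  have mem1 : b0 ∈ ({b0, s0, Vx.hub, s1, b1} : Finset (Vx m)) := by simp
  have mem2 : s0 ∈ ({b0, s0, Vx.hub, s1, b1} : Finset (Vx m)) := by simp
  have mem3 : Vx.hub ∈ ({b0, s0, Vx.hub, s1, b1} : Finset (Vx m)) := by simp
  have mem4 : s1 ∈ ({b0, s0, Vx.hub, s1, b1} : Finset (Vx m)) := by simp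
  have mem5 : b1 ∈ ({b0, s0, Vx.hub, s1, b1} : Finset (Vx m)) := by simp
  rcases hu with rfl | rfl | rfl | rfl | rfl
  · have h2 : hubDist b0 = 2 := rfl
    rcases (by omega : l = 1 ∨ l = 2 ∨ l = 3 ∨ l = 4) with h | h | h | h
    · exact ⟨s0, mem2, by rw [DistanceMove]; omega⟩
    · exact ⟨Vx.hub, mem3, by rw [DistanceMove]; omega⟩
    · exact ⟨s1, mem4, by rw [DistanceMove]; omega⟩
    · exact ⟨b1, mem5, by rw [DistanceMove]; omega⟩
  · have h2 : hubDist s0 = 1 := rfl
    rcases (by omega : l = 1 ∨ l = 2 ∨ l = 3) with h | h | h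
    · exact ⟨b0, mem1, by rw [DistanceMove]; omega⟩
    · exact ⟨s1, mem4, by rw [DistanceMove]; omega⟩
    · exact ⟨b1, mem5, by rw [DistanceMove]; omega⟩
  · have h2 : hubDist (Vx.hub : Vx m) = 0 := rfl
    rcases (by omega : l = 1 ∨ l = 2) with h | h
    · exact ⟨s0, mem2, by rw [DistanceMove]; omega⟩
    · exact ⟨b0, mem1, by rw [DistanceMove]; omega⟩
  · have h2 : hubDist s1 = 1 := rfl
    rcases (by omega : l = 1 ∨ l = 2 ∨ l = 3) with h | h | h
    · exact ⟨b1, mem5, by rw [DistanceMove]; omega⟩
    · exact ⟨s0, mem2, by rw [DistanceMove]; omega⟩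
    · exact ⟨b0, mem1, by rw [DistanceMove]; omega⟩
  · have h2 : hubDist b1 = 2 := rfl
    rcases (by omega : l = 1 ∨ l = 2 ∨ l = 3 ∨ l = 4) with h | h | h | h
    · exact ⟨s1, mem4, by rw [DistanceMove]; omega⟩
    · exact ⟨Vx.hub, mem3, by rw [DistanceMove]; omega⟩
    · exact ⟨s0, mem2, by rw [DistanceMove]; omega⟩
    · exact ⟨b0, mem1, by rw [DistanceMove]; omega⟩

/-! ### Long paths -/

/-- being in the clique number `j` -/
def inB (j : ℕ) : Vx m → Prop
  | .sp _ => False
  | .hub => False
  | .bl j' _ => (j' : ℕ) = j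

/-- being the spine vertex below the clique number `j` -/
def isS (j : ℕ) : Vx m → Prop
  | .sp x => (x : ℕ) = 2 * m + 2 * j
  | .hub => False
  | .bl _ _ => False

/-- the position in the core (spine and hub) -/
def pos : Vx m → ℕ
  | .sp x => x
  | .hub => 6 * m
  | .bl _ _ => 6 * m + 1

/-- the number within the clique -/
def tnum : Vx m → ℕ
  | .sp _ => 0
  | .hub => 0
  | .bl _ t => t

/-- being in the core -/
def inC : Vx m → Prop
  | .sp _ => True
  | .hub => True
  | .bl _ _ => False

lemma inB_eq {j : ℕ} {x y : Vx m} (hx : inB j x) (hy : inB j y) (h : tnum x = tnum y) :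
    x = y := by
  rcases x with x | _ | ⟨j1, t1⟩ <;> rcases y with y | _ | ⟨j2, t2⟩ <;>
    simp only [inB, tnum] at hx hy h
  subst hx
  have : j2 = j1 := Fin.ext hy
  subst this
  have : t1 = t2 := Fin.ext h
  rw [this]

lemma inB_tnum {j : ℕ} {x : Vx m} (hx : inB j x) : tnum x < j + 1 := by
  rcases x with x | _ | ⟨j1, t1⟩ <;> simp only [inB, tnum] at hx ⊢
  have := t1.isLt
  omega

lemma inC_eq {x y : Vx m} (hx : inC x) (hy : inC y) (h : pos x = pos y) : x = y := by
  rcases x with x | _ | ⟨j1, t1⟩ <;> rcases y with y | _ | ⟨j2, t2⟩ <;>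
    simp only [inC, pos] at hx hy h
  · rw [Fin.ext h]
  · have := x.isLt; omega
  · have := y.isLt; omega
  · rfl

lemma inC_pos {x : Vx m} (hx : inC x) : pos x ≤ 6 * m := by
  rcases x with x | _ | ⟨j1, t1⟩ <;> simp only [inC, pos] at hx ⊢
  · have := x.isLt; omega
  · exact le_rfl

lemma isS_pos {j : ℕ} {x : Vx m} (hx : isS j x) : pos x = 2 * m + 2 * j := by
  rcases x with x | _ | ⟨j1, t1⟩ <;> simp only [isS, pos] at hx ⊢
  exact hx

lemma isS_inC {j : ℕ} {x : Vx m} (hx : isS j x) : inC x := by
  rcases x with x | _ | ⟨j1, t1⟩ <;> simp only [isS, inC] at hx ⊢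

lemma isS_eq {j : ℕ} {x y : Vx m} (hx : isS j x) (hy : isS j y) : x = y :=
  inC_eq (isS_inC hx) (isS_inC hy) (by rw [isS_pos hx, isS_pos hy])

lemma adj_inB {j : ℕ} {x y : Vx m} (h : adj m x y) (hx : inB j x) : inB j y ∨ isS j y := by
  rcases x with x | _ | ⟨j1, t1⟩ <;> rcases y with y | _ | ⟨j2, t2⟩ <;>
    simp only [inB, isS, adj] at hx h ⊢
  · right; rw [h, hx]
  · left; rw [← h.1, hx]

lemma adj_inB' {j : ℕ} {x y : Vx m} (h : adj m x y) (hy : inB j y) : inB j x ∨ isS j x :=
  adj_inB (show (G m).Adj y x from (show (G m).Adj x y from h).symm) hy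

lemma adj_inC {x y : Vx m} (h : adj m x y) (hx : inC x) (hy : inC y) :
    pos x = 6 * m ∨ pos y = 6 * m ∨ pos x + 1 = pos y ∨ pos y + 1 = pos x := by
  rcases x with x | _ | ⟨j1, t1⟩ <;> rcases y with y | _ | ⟨j2, t2⟩ <;>
    simp only [inC, pos, adj] at hx hy h ⊢
  · right; right; exact h
  · right; left; trivial
  · left; trivial

lemma inB_or_inC (x : Vx m) : inC x ∨ ∃ j, j < m ∧ inB j x := by
  rcases x with x | _ | ⟨j1, t1⟩
  · left; trivial
  · left; trivial
  · right; exact ⟨j1, j1.isLt, rfl⟩

lemma inB_unique {j j' : ℕ} {x : Vx m} (h : inB j x) (h' : inB j' x) : j = j' := by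
  rcases x with x | _ | ⟨j1, t1⟩ <;> simp only [inB] at h h'
  rw [← h, h']

lemma inB_not_inC {j : ℕ} {x : Vx m} (h : inB j x) : ¬ inC x := by
  rcases x with x | _ | ⟨j1, t1⟩ <;> simp only [inB] at h
  simp [inC]

section LongPath

variable {f : ℕ → Vx m} {l : ℕ}

/-- once the vertex below a clique has been used, the path cannot leave the clique -/
lemma stay (hadj : ∀ t, t < l → adj m (f t) (f (t + 1)))
    (hinj : ∀ s t, s < t → t ≤ l → f s ≠ f t) {j a t0 : ℕ} (ha : isS j (f a))
    (hat : a < t0) (ht : inB j (f t0)) : ∀ t, t0 ≤ t → t ≤ l → inB j (f t) := by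
  intro t h1
  induction t, h1 using Nat.le_induction with
  | base => intro _; exact ht
  | succ t h1 ih =>
    intro h2
    rcases adj_inB (hadj t (by omega)) (ih (by omega)) with h3 | h3
    · exact h3
    · exact absurd (isS_eq ha h3) (hinj a (t + 1) (by omega) h2)

/-- entering a clique -/
lemma enter (hadj : ∀ t, t < l → adj m (f t) (f (t + 1)))
    (hinj : ∀ s t, s < t → t ≤ l → f s ≠ f t) {j t0 : ℕ} (h0 : ¬ inB j (f 0))
    (ht0 : t0 ≤ l) (ht : inB j (f t0)) :
    ∃ e, e < t0 ∧ isS j (f e) ∧ (∀ t, e < t → t ≤ l → inB j (f t)) ∧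
      (∀ t, t ≤ e → ¬ inB j (f t)) := by
  classical
  have hex : ∃ t, inB j (f t) := ⟨t0, ht⟩
  have h1 : inB j (f (Nat.find hex)) := Nat.find_spec hex
  have h2 : Nat.find hex ≤ t0 := Nat.find_min' hex ht
  have h3 : Nat.find hex ≠ 0 := by
    intro h
    rw [h] at h1
    exact h0 h1
  have h4 : ∀ t, t < Nat.find hex → ¬ inB j (f t) := fun t ht => Nat.find_min hex ht
  set t1 := Nat.find hex
  have h5 := hadj (t1 - 1) (by omega)
  rw [show t1 - 1 + 1 = t1 from by omega] at h5
  have h6 : isS j (f (t1 - 1)) := by
    rcases adj_inB' h5 h1 with h | h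
    · exact absurd h (h4 _ (by omega))
    · exact h
  refine ⟨t1 - 1, by omega, h6, ?_, ?_⟩
  · intro t ht1 ht2
    exact stay hadj hinj h6 (by omega) h1 t (by omega) ht2
  · intro t ht1
    exact h4 t (by omega)

lemma card_inB (hinj : ∀ s t, s < t → t ≤ l → f s ≠ f t) {j a b : ℕ}
    (h : ∀ t, a ≤ t → t < b → inB j (f t)) (hb : b ≤ l + 1) : b - a ≤ j + 1 := by
  have := card_of_inj (f := fun t => tnum (f t)) (a := a) (b := b) (W := Finset.range (j + 1))
    (fun t h1 h2 => Finset.mem_range.mpr (inB_tnum (h t h1 h2)))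
    (fun s t h1 h2 h3 h4 => hinj s t h2 (by omega)
      (inB_eq (h s h1 (by omega)) (h t (by omega) h3) h4))
  simpa using this

theorem path_end_fun {i : ℕ} (hi : i + 1 < m) (hl : l = 6 * m + 2 * i + 2)
    (h0 : inB i (f 0)) (hadj : ∀ t, t < l → adj m (f t) (f (t + 1)))
    (hinj : ∀ s t, s < t → t ≤ l → f s ≠ f t) : inB (i + 1) (f l) := by
  classical
  -- the time at which the path leaves its first clique
  have hex : ∃ t, t ≤ l ∧ ¬ inB i (f t) := by
    by_contra hcon
    push Not at hcon
    have := card_inB (j := i) (a := 0) (b := l + 1) hinj (fun t _ h => hcon t (by omega)) le_rfl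
    omega
  obtain ⟨a, ha1, ha2, ha3⟩ : ∃ a, a ≤ l ∧ ¬ inB i (f a) ∧ ∀ t, t < a → inB i (f t) := by
    refine ⟨Nat.find hex, (Nat.find_spec hex).1, (Nat.find_spec hex).2, ?_⟩
    intro t ht
    have h1 := Nat.find_min hex ht
    have h2 := (Nat.find_spec hex).1
    by_contra h3
    exact h1 ⟨by omega, h3⟩
  have ha0 : a ≠ 0 := by
    intro h
    rw [h] at ha2
    exact ha2 h0
  have haS : isS i (f a) := by
    have h5 := hadj (a - 1) (by omega)
    rw [show a - 1 + 1 = a from by omega] at h5
    rcases adj_inB h5 (ha3 (a - 1) (by omega)) with h | h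
    · exact absurd h ha2
    · exact h
  have hai : a ≤ i + 1 := by
    have := card_inB (j := i) (a := 0) (b := a) hinj (fun t _ h => ha3 t h) (by omega)
    omega
  by_cases hB : ∃ j t, j ≠ i ∧ t ≤ l ∧ inB j (f t)
  · obtain ⟨j, t0, hji, ht0, hjt⟩ := hB
    obtain ⟨e, he1, he2, he3, he4⟩ := enter hadj hinj (j := j)
      (fun h => hji (inB_unique h h0)) ht0 hjt
    have hlj : inB j (f l) := he3 l (by omega) le_rfl
    have hjm : j < m := by
      rcases inB_or_inC (f l) with h | ⟨j', h1, h2⟩
      · exact absurd h (inB_not_inC hlj)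
      · rw [inB_unique hlj h2]; exact h1
    by_cases hj1 : j = i + 1
    · rw [← hj1]; exact hlj
    exfalso
    have hle : l - e ≤ j + 1 := by
      have := card_inB (j := j) (a := e + 1) (b := l + 1) hinj
        (fun t h1 h2 => he3 t (by omega) (by omega)) le_rfl
      omega
    have hae : a < e := by
      rcases lt_trichotomy a e with h | h | h
      · exact h
      · have h1 := isS_pos haS
        have h2 := isS_pos he2
        rw [h] at h1
        omega
      · exact absurd (isS_inC he2) (inB_not_inC (ha3 e h))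
    have hcore : ∀ t, a ≤ t → t ≤ e → inC (f t) := by
      intro t h1 h2
      rcases inB_or_inC (f t) with h | ⟨j', hj', h⟩
      · exact h
      exfalso
      by_cases hj'i : j' = i
      · subst hj'i
        rcases Nat.lt_or_ge a t with h3 | h3
        · have := stay hadj hinj haS h3 h l (by omega) le_rfl
          exact hji (inB_unique hlj this)
        · have : t = a := by omega
          subst this
          exact ha2 h
      · obtain ⟨e', h3, _, h5, _⟩ := enter hadj hinj (j := j')
          (fun h' => hj'i (inB_unique h' h0)) (by omega : t ≤ l) h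
        have h6 := h5 l (by omega) le_rfl
        have h7 := inB_unique hlj h6
        subst h7
        exact he4 t h2 h
    have hpa := isS_pos haS
    have hpe := isS_pos he2
    rcases lt_trichotomy j i with hlt | heq | hgt
    · -- reversed
      have := core_le (N := 6 * m) (p := 2 * m + 2 * j) (q := 2 * m + 2 * i) (a := a) (e := e)
        (g := fun t => pos (f (a + e - t))) (by omega) (by omega) hae
        (fun t h1 h2 => inC_pos (hcore _ (by omega) (by omega)))
        (fun s t h1 h2 h3 h4 => hinj (a + e - t) (a + e - s) (by omega) (by omega)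
          (inC_eq (hcore _ (by omega) (by omega)) (hcore _ (by omega) (by omega)) h4.symm))
        (fun t h1 h2 => by
          have h3 := adj_inC (hadj (a + e - (t + 1)) (by omega)) (hcore _ (by omega) (by omega))
            (hcore _ (by omega) (by omega))
          rw [show a + e - (t + 1) + 1 = a + e - t from by omega] at h3
          rcases h3 with h3 | h3 | h3 | h3
          · right; left; exact h3
          · left; exact h3
          · right; right; right; exact h3
          · right; right; left; exact h3)
        (by simp only [Nat.add_sub_cancel_left]; exact hpe)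
        (by simp only [Nat.add_sub_cancel]; exact hpa)
      omega
    · exact hji heq
    · have := core_le (N := 6 * m) (p := 2 * m + 2 * i) (q := 2 * m + 2 * j) (a := a) (e := e)
        (g := fun t => pos (f t)) (by omega) (by omega) hae
        (fun t h1 h2 => inC_pos (hcore t h1 h2))
        (fun s t h1 h2 h3 h4 => hinj s t h2 (by omega)
          (inC_eq (hcore _ (by omega) (by omega)) (hcore _ (by omega) (by omega)) h4))
        (fun t h1 h2 => adj_inC (hadj t (by omega)) (hcore _ (by omega) (by omega))
            (hcore _ (by omega) (by omega)))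
        hpa hpe
      omega
  · -- no other clique is visited
    exfalso
    push Not at hB
    have hBC : ∀ t, t ≤ l → inC (f t) ∨ inB i (f t) := by
      intro t ht
      rcases inB_or_inC (f t) with h | ⟨j', hj', h⟩
      · exact Or.inl h
      · right
        by_cases hj : j' = i
        · rw [← hj]; exact h
        · exact absurd h (hB j' t hj ht)
    have := card_of_inj (f := fun t => if inC (f t) then i + 1 + pos (f t) else tnum (f t))
      (a := 0) (b := l + 1) (W := Finset.range (i + 1 + (6 * m + 1)))
      (fun t _ h2 => by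
        rw [Finset.mem_range]
        by_cases h3 : inC (f t)
        · have := inC_pos h3
          simp only [h3, if_true]
          omega
        · have h4 : inB i (f t) := by
            rcases hBC t (by omega) with h | h
            · exact absurd h h3
            · exact h
          have := inB_tnum h4
          simp only [h3, if_false]
          omega)
      (fun s t _ h2 h3 h4 => by
        have hne := hinj s t h2 (by omega)
        by_cases h5 : inC (f s) <;> by_cases h6 : inC (f t) <;> simp only [h5, h6, if_true, if_false] at h4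
        · exact hne (inC_eq h5 h6 (by omega))
        · have h8 := inB_tnum ((hBC t (by omega)).resolve_left h6)
          omega
        · have h8 := inB_tnum ((hBC s (by omega)).resolve_left h5)
          omega
        · exact hne (inB_eq ((hBC s (by omega)).resolve_left h5)
            ((hBC t (by omega)).resolve_left h6) h4))
    rw [Finset.card_range] at this
    omega

end LongPath

lemma path_end {i : ℕ} (hi : i + 1 < m) {u x : Vx m} (hu : inB i u)
    (h : PathMove (G m) u (6 * m + 2 * i + 2) x) : inB (i + 1) x := by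
  obtain ⟨p, hp, hl⟩ := h
  have h1 := path_end_fun (l := p.length) (f := p.getVert) hi hl (by
      rw [SimpleGraph.Walk.getVert_zero]; exact hu)
    (fun t ht => p.adj_getVert_succ ht)
    (fun s t hst ht h => by
      have := hp.getVert_injOn (by simp; omega : s ∈ {i | i ≤ p.length})
        (by simp; omega : t ∈ {i | i ≤ p.length}) h
      omega)
  rw [SimpleGraph.Walk.getVert_length] at h1
  exact h1

/-- spine vertex by number -/
def spn (x : ℕ) : Vx m := if h : x < 6 * m then .sp ⟨x, h⟩ else .hub

/-- clique vertex by number -/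
def bln (j t : ℕ) : Vx m :=
  if h : j < m then (if h' : t < j + 1 then .bl ⟨j, h⟩ ⟨t, h'⟩ else .hub) else .hub

/-- a long path -/
def longPath (m i u : ℕ) (t : ℕ) : Vx m :=
  if t ≤ i then bln i (if u + t ≤ i then u + t else u + t - (i + 1))
  else if t ≤ i + 1 + (2 * m + 2 * i) then spn (i + 1 + (2 * m + 2 * i) - t)
  else if t = i + 2 + (2 * m + 2 * i) then .hub
  else if t ≤ i + 6 * m then spn (6 * m + 2 + i + (2 * m + 2 * i) - t)
  else bln (i + 1) (t - (i + 1 + 6 * m))

/-- the time at which a vertex is visited -/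
def timeOf (m i u : ℕ) : Vx m → ℕ
  | .sp x => if (x : ℕ) ≤ 2 * m + 2 * i then i + 1 + (2 * m + 2 * i) - x
      else 6 * m + 2 + i + (2 * m + 2 * i) - x
  | .hub => i + 2 + (2 * m + 2 * i)
  | .bl j t => if (j : ℕ) = i then (if u ≤ t then t - u else t + (i + 1) - u)
      else t + (i + 1 + 6 * m)

lemma timeOf_longPath {i u : ℕ} (hi : i + 1 < m) (hu : u ≤ i) (t : ℕ)
    (ht : t ≤ 6 * m + 2 * i + 2) : timeOf m i u (longPath m i u t) = t := by
  unfold longPath
  by_cases h1 : t ≤ i
  · rw [if_pos h1]
    by_cases h2 : u + t ≤ i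
    · rw [if_pos h2, bln, dif_pos (by omega), dif_pos (by omega)]
      simp only [timeOf, if_true]
      rw [if_pos (by omega)]
      omega
    · rw [if_neg h2, bln, dif_pos (by omega), dif_pos (by omega)]
      simp only [timeOf, if_true]
      rw [if_neg (by omega)]
      omega
  · rw [if_neg h1]
    by_cases h2 : t ≤ i + 1 + (2 * m + 2 * i)
    · rw [if_pos h2, spn, dif_pos (by omega)]
      simp only [timeOf]
      rw [if_pos (by omega)]
      omega
    · rw [if_neg h2]
      by_cases h3 : t = i + 2 + (2 * m + 2 * i)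
      · rw [if_pos h3]
        simp only [timeOf]
        omega
      · rw [if_neg h3]
        by_cases h4 : t ≤ i + 6 * m
        · rw [if_pos h4, spn, dif_pos (by omega)]
          simp only [timeOf]
          rw [if_neg (by omega)]
          omega
        · rw [if_neg h4, bln, dif_pos (by omega), dif_pos (by omega)]
          simp only [timeOf]
          rw [if_neg (by omega)]
          omega

lemma adj_spn {x y : ℕ} (hx : x < 6 * m) (hy : y < 6 * m) (h : x + 1 = y ∨ y + 1 = x) :
    adj m (spn x) (spn y) := by
  rw [spn, spn, dif_pos hx, dif_pos hy]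
  exact h

lemma adj_spn_hub {x : ℕ} (hx : x < 6 * m) : adj m (spn x) .hub := by
  rw [spn, dif_pos hx]
  trivial

lemma adj_hub_spn {x : ℕ} (hx : x < 6 * m) : adj m .hub (spn x) := by
  rw [spn, dif_pos hx]
  trivial

lemma adj_bln_spn {j t x : ℕ} (hj : j < m) (ht : t < j + 1) (hx : x = 2 * m + 2 * j) :
    adj m (bln j t) (spn x) := by
  rw [bln, spn, dif_pos hj, dif_pos ht, dif_pos (by omega)]
  exact hx

lemma adj_spn_bln {j t x : ℕ} (hj : j < m) (ht : t < j + 1) (hx : x = 2 * m + 2 * j) :
    adj m (spn x) (bln j t) := by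
  rw [bln, spn, dif_pos hj, dif_pos ht, dif_pos (by omega)]
  exact hx

lemma adj_bln_bln {j t t' : ℕ} (hj : j < m) (ht : t < j + 1) (ht' : t' < j + 1) (h : t ≠ t') :
    adj m (bln j t) (bln j t') := by
  rw [bln, bln, dif_pos hj, dif_pos ht, dif_pos hj, dif_pos ht']
  exact ⟨rfl, h⟩

lemma longPath_adj {i u : ℕ} (hi : i + 1 < m) (hu : u ≤ i) (t : ℕ)
    (ht : t < 6 * m + 2 * i + 2) : (G m).Adj (longPath m i u t) (longPath m i u (t + 1)) := by
  show adj m _ _
  unfold longPath
  by_cases h1 : t ≤ i
  · rw [if_pos h1]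
    by_cases h1' : t + 1 ≤ i
    · rw [if_pos h1']
      apply adj_bln_bln (by omega)
      · split_ifs <;> omega
      · split_ifs <;> omega
      · split_ifs <;> omega
    · rw [if_neg h1', if_pos (by omega : t + 1 ≤ i + 1 + (2 * m + 2 * i))]
      apply adj_bln_spn (by omega)
      · split_ifs <;> omega
      · omega
  · rw [if_neg h1, if_neg (by omega : ¬ t + 1 ≤ i)]
    by_cases h2 : t ≤ i + 1 + (2 * m + 2 * i)
    · rw [if_pos h2]
      by_cases h2' : t + 1 ≤ i + 1 + (2 * m + 2 * i)
      · rw [if_pos h2']
        apply adj_spn <;> omega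
      · rw [if_neg h2', if_pos (by omega)]
        apply adj_spn_hub
        omega
    · rw [if_neg h2, if_neg (by omega : ¬ t + 1 ≤ i + 1 + (2 * m + 2 * i)),
        if_neg (by omega : ¬ t + 1 = i + 2 + (2 * m + 2 * i))]
      by_cases h3 : t = i + 2 + (2 * m + 2 * i)
      · rw [if_pos h3, if_pos (by omega)]
        apply adj_hub_spn
        omega
      · rw [if_neg h3]
        by_cases h4 : t ≤ i + 6 * m
        · rw [if_pos h4]
          by_cases h4' : t + 1 ≤ i + 6 * m
          · rw [if_pos h4']
            apply adj_spn <;> omega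
          · rw [if_neg h4']
            apply adj_spn_bln <;> omega
        · rw [if_neg h4, if_neg (by omega : ¬ t + 1 ≤ i + 6 * m)]
          apply adj_bln_bln <;> omega

lemma exists_long {i : ℕ} (hi : i + 1 < m) {u : Vx m} (hu : inB i u) :
    ∃ x, PathMove (G m) u (6 * m + 2 * i + 2) x := by
  have ht := inB_tnum hu
  have h0 : longPath m i (tnum u) 0 = u := by
    refine inB_eq (j := i) ?_ hu ?_
    · rw [longPath, if_pos (by omega), if_pos (by omega), bln, dif_pos (by omega),
        dif_pos (by omega)]
      rfl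
    · rw [longPath, if_pos (by omega), if_pos (by omega), bln, dif_pos (by omega),
        dif_pos (by omega)]
      rfl
  have h := exists_path (G := G m) (f := longPath m i (tnum u))
    (6 * m + 2 * i + 2) (timeOf m i (tnum u))
    (fun t ht' => longPath_adj hi (by omega) t ht')
    (fun t ht' => timeOf_longPath hi (by omega) t ht')
  rw [h0] at h
  exact ⟨_, h⟩

/-! ### The Explorer's strategy -/

lemma explorer (k : ℕ) : ∀ i, i + k + 1 = m → ∀ (u : Vx m) (S : Finset (Vx m)), inB i u →
    i + 1 ≤ S.card → (∀ x ∈ S, ∀ j, i < j → ¬ inB j x) →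
    ExplorerForces (PathMove (G m)) m u S := by
  induction k with
  | zero =>
    intro i hi u S hu hS _
    exact ExplorerForces.enough u S (by omega)
  | succ k ih =>
    intro i hi u S hu hS hnew
    refine ExplorerForces.round u S (6 * m + 2 * i + 2) (by omega) (exists_long (by omega) hu) ?_
    intro x hx
    have hxB := path_end (by omega) hu hx
    refine ih (i + 1) (by omega) x (insert x S) hxB ?_ ?_
    · rw [Finset.card_insert_of_notMem]
      · omega
      · intro hxS
        exact hnew x hxS (i + 1) (by omega) hxB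
    · intro y hy j hj hyB
      rcases Finset.mem_insert.mp hy with rfl | hyS
      · have := inB_unique hxB hyB
        omega
      · exact hnew y hyS j (by omega) hyB

lemma le_pathValue (hm : 0 < m) : m ≤ pathValue (G m) (Vx.bl ⟨0, hm⟩ ⟨0, by simp⟩) := by
  refine le_value ?_
  refine explorer (m - 1) 0 (by omega) _ _ rfl (by simp) ?_
  intro x hx j hj hB
  rw [Finset.mem_singleton] at hx
  subst hx
  simp only [inB] at hB
  omega

/-- For every real number `k` there are a finite connected graph `G` and a vertex `v` of `G` with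
`f_p(G, v) / f_d(G, v) > k`. -/
theorem result : ∀ k : ℝ, ∃ (V : Type) (_ : Fintype V) (_ : DecidableEq V)
    (G : SimpleGraph V) (v : V), G.Connected ∧
      0 < distanceValue G v ∧ (pathValue G v : ℝ) / (distanceValue G v : ℝ) > k := by
  intro k
  obtain ⟨n, hn⟩ := exists_nat_gt (5 * |k|)
  set m := n + 2 with hm
  have h1 := le_pathValue (m := m) (by omega)
  have h2 := distanceValue_le (m := m) (by omega)
  have h3 : 1 ≤ distanceValue (G m) (Vx.bl ⟨0, by omega⟩ ⟨0, by simp⟩) := one_le_value _
  refine ⟨Vx m, inferInstance, inferInstance, G m, Vx.bl ⟨0, by omega⟩ ⟨0, by simp⟩,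
    connected, by omega, ?_⟩
  rw [gt_iff_lt, lt_div_iff₀ (by exact_mod_cast h3)]
  have h4 : ((m : ℕ) : ℝ) ≤ (pathValue (G m) (Vx.bl ⟨0, by omega⟩ ⟨0, by simp⟩) : ℝ) := by
    exact_mod_cast h1
  have h5 : ((distanceValue (G m) (Vx.bl ⟨0, by omega⟩ ⟨0, by simp⟩) : ℕ) : ℝ) ≤ 5 := by
    exact_mod_cast h2
  have h6 : (0 : ℝ) ≤ ((distanceValue (G m) (Vx.bl ⟨0, by omega⟩ ⟨0, by simp⟩) : ℕ) : ℝ) := by
    positivity
  have h7 : ((m : ℕ) : ℝ) = n + 2 := by rw [hm]; push_cast; ring
  have h8 := le_abs_self k
  have h9 := abs_nonneg k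
  nlinarith

end Pool.Agent.Results.MP_5904a2_co.UnboundedRatio
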